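import Mathlib
import Pool.Agent.Q158.Cyc.Comb

/-!
# Lehmer's problem for combinations of products of cyclotomic polynomials

For a multiset `P` of positive integers put `W(P) = ∑_{n ∈ P} 2 ^ (ω(n) / 2)`, where `ω(n)` is the
number of prime factors of `n`. There is an absolute constant `c > 0` such that

  `log M(f) ≥ c / (1 + log ∑ L(h_i) + W(P)) ^ 3`

for every irreducible `f` with `M(f) > 1` of the form `f = ∑ h_i ∏_{n ∈ N_i} Φ_n`, where the `h_i` are
integer polynomials, `L(h)` is the length (the sum of the absolute values of the coefficients) and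
the `N_i` are sub-multisets of `P`. The degrees of the `h_i` and the sizes of the `n` do not matter,
only the number of the prime factors of the `n`. In particular, perturbing one cyclotomic polynomial
`Φ_n` by `h` gives `log M(Φ_n + h) ≥ c / (1 + log (1 + L(h)) + 2 ^ (ω(n) / 2)) ^ 3`. For almost all
`n` this is `≫ (log n) ^ (-1.04)` for bounded `L(h)`, the exponent being
`(3 / 2) log 2 + o(1)`, against `3 + o(1)` in the theorem of Dobrowolski.

Proof. Put `m⁺(f)` for the mean of `log⁺ |f|` over the unit circle. The power sums of the primitive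
`n`-th roots of unity (Ramanujan's sums) satisfy `∑_k |c_n(k)|² / k² ≤ (π² / 6) 2 ^ ω(n)`, and
`m⁺(Φ_n) ≤ (∑_k |c_n(k)|² / k²) ^ (1/2)` because the zeros are on the unit circle. So
`m⁺(f) ≤ log ∑ L(h_i) + (π / √6) W(P)`, and `log M(f) ≥ c / (1 + m⁺(f)) ^ 3`.
-/

set_option autoImplicit false

open Polynomial Real

namespace Pool.Agent.Results.MP_7ab245_nt.CyclotomicSums

noncomputable section

/-- The Mahler measure of an integer polynomial. -/
def M (f : ℤ[X]) : ℝ := (f.map (Int.castRingHom ℂ)).mahlerMeasure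

/-- The length: the sum of the absolute values of the coefficients. -/
def len (h : ℤ[X]) : ℝ := ∑ k ∈ h.support, |(h.coeff k : ℝ)|

/-- The product of the cyclotomic polynomials with the indices in `N`. -/
def cycProd (N : Multiset ℕ) : ℤ[X] := (N.map fun n => cyclotomic n ℤ).prod

/-- `∑_{n ∈ P} 2 ^ (ω(n) / 2)` -/
def W (P : Multiset ℕ) : ℝ := (P.map fun n => √(2 ^ n.primeFactors.card)).sum

open Classical in
theorem result : ∃ c : ℝ, 0 < c ∧
    (∀ (ι : Type) (s : Finset ι) (h : ι → ℤ[X]) (N : ι → Multiset ℕ) (P : Multiset ℕ),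
      (∀ i ∈ s, N i ≤ P) → 0 ∉ P → Irreducible (∑ i ∈ s, h i * cycProd (N i)) →
      1 < M (∑ i ∈ s, h i * cycProd (N i)) →
      exp (c / (1 + log (∑ i ∈ s, len (h i)) + W P) ^ 3) ≤ M (∑ i ∈ s, h i * cycProd (N i))) ∧
    (∀ n : ℕ, 0 < n → ∀ g h : ℤ[X], Irreducible (g * cyclotomic n ℤ + h) →
      1 < M (g * cyclotomic n ℤ + h) →
      exp (c / (1 + log (len g + len h) + √(2 ^ n.primeFactors.card)) ^ 3) ≤
        M (g * cyclotomic n ℤ + h)) ∧
    (∀ ε : ℝ, 0 < ε → ∃ C : ℝ, 0 < C ∧ ∀ x : ℕ, 2 ≤ x →
      (((Finset.Icc 1 x).filter fun n : ℕ => ∃ g h : ℤ[X], Irreducible (g * cyclotomic n ℤ + h) ∧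
        1 < M (g * cyclotomic n ℤ + h) ∧
        M (g * cyclotomic n ℤ + h) <
          exp (c / (1 + log (len g + len h) + log x ^ ((1 + ε) * (log 2 / 2))) ^ 3)).card : ℝ) ≤
        C * x / log x ^ ((1 + ε) * log (1 + ε) - ε)) := by
  obtain ⟨c, hc, H⟩ := Pool.Agent.Q158.Cyc.main
  have H2 : ∀ n : ℕ, 0 < n → ∀ g h : ℤ[X], Irreducible (g * cyclotomic n ℤ + h) →
      1 < M (g * cyclotomic n ℤ + h) →
      exp (c / (1 + log (len g + len h) + √(2 ^ n.primeFactors.card)) ^ 3) ≤
        M (g * cyclotomic n ℤ + h) := by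
    intro n hn g h hirr hM
    have h1 := H Bool Finset.univ (fun b => if b then g else h)
      (fun b => if b then {n} else 0) {n}
      (by
        intro i _
        cases i
        · simp
        · simp)
      (by simpa using hn.ne)
    have h2 : ∑ i ∈ (Finset.univ : Finset Bool), (if i then g else h) *
        Pool.Agent.Q158.Cyc.cycProd (if i then {n} else 0) = g * cyclotomic n ℤ + h := by
      rw [Fintype.sum_bool]
      simp [Pool.Agent.Q158.Cyc.cycProd]
    rw [h2] at h1
    have h3 : ∑ i ∈ (Finset.univ : Finset Bool), Pool.Agent.Q158.Cyc.len (if i then g else h) =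
        len g + len h := by
      rw [Fintype.sum_bool]
      simp [Pool.Agent.Q158.Cyc.len, len]
    rw [h3] at h1
    have h4 := h1 hirr hM
    rw [Multiset.map_singleton, Multiset.sum_singleton] at h4
    have hpos : 0 < M (g * cyclotomic n ℤ + h) := by linarith
    rw [← Real.exp_log hpos]
    exact Real.exp_le_exp.2 h4
  refine ⟨c, hc, ?_, H2, ?_⟩
  · intro ι s h N P hN hP hirr hM
    have h4 := H ι s h N P hN hP hirr hM
    have hpos : 0 < M (∑ i ∈ s, h i * cycProd (N i)) := by linarith
    rw [← Real.exp_log hpos]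
    exact Real.exp_le_exp.2 h4
  · intro ε hε
    obtain ⟨C, hC, HC⟩ := Pool.Agent.Q158.Cyc.many_rare ε hε
    refine ⟨C, hC, ?_⟩
    intro x hx
    refine le_trans ?_ (HC x hx)
    have hsub : ((Finset.Icc 1 x).filter fun n : ℕ => ∃ g h : ℤ[X],
        Irreducible (g * cyclotomic n ℤ + h) ∧ 1 < M (g * cyclotomic n ℤ + h) ∧
        M (g * cyclotomic n ℤ + h) <
          exp (c / (1 + log (len g + len h) + log x ^ ((1 + ε) * (log 2 / 2))) ^ 3)) ⊆
        (Finset.Icc 1 x).filter (fun n : ℕ =>
          (1 + ε) * Real.log (Real.log x) < n.primeFactors.card) := by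
      intro n hn
      rw [Finset.mem_filter] at hn ⊢
      refine ⟨hn.1, ?_⟩
      obtain ⟨g, h, hirr, hM, hlt⟩ := hn.2
      by_contra hle
      push Not at hle
      have hn0 : 0 < n := (Finset.mem_Icc.1 hn.1).1
      have h1 := H2 n hn0 g h hirr hM
      have hx1 : (1 : ℝ) < x := by exact_mod_cast (by omega : 1 < x)
      have hL : 0 < Real.log x := Real.log_pos hx1
      have h2 : √((2 : ℝ) ^ n.primeFactors.card) ≤ log x ^ ((1 + ε) * (log 2 / 2)) := by
        rw [Real.rpow_def_of_pos hL, Real.sqrt_le_left (exp_pos _).le, ← Real.exp_nat_mul,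
          ← Real.rpow_natCast, Real.rpow_def_of_pos (by norm_num : (0 : ℝ) < 2)]
        apply Real.exp_le_exp.2
        have h5 : (0 : ℝ) < log 2 := Real.log_pos (by norm_num)
        have h6 := mul_le_mul_of_nonneg_left hle h5.le
        push_cast
        nlinarith
      have hlen : ∀ q : ℤ[X], 0 ≤ len q := Pool.Agent.Q158.Cyc.len_nonneg
      have hL1 : 0 ≤ log (len g + len h) := by
        apply Real.log_nonneg
        by_cases hg : g = 0
        · by_cases hh : h = 0
          · subst hg; subst hh
            simp at hirr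
          · have := Pool.Agent.Q158.Cyc.one_le_len h hh
            have h7 : (1 : ℝ) ≤ len h := this
            have := hlen g
            linarith
        · have := Pool.Agent.Q158.Cyc.one_le_len g hg
          have h7 : (1 : ℝ) ≤ len g := this
          have := hlen h
          linarith
      have h3 : exp (c / (1 + log (len g + len h) + log x ^ ((1 + ε) * (log 2 / 2))) ^ 3) ≤
          exp (c / (1 + log (len g + len h) + √(2 ^ n.primeFactors.card)) ^ 3) := by
        apply Real.exp_le_exp.2
        have h8 : 0 ≤ √((2 : ℝ) ^ n.primeFactors.card) := Real.sqrt_nonneg _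
        apply div_le_div_of_nonneg_left hc.le (by positivity)
        apply pow_le_pow_left₀ (by positivity)
        linarith
      linarith
    exact_mod_cast Finset.card_le_card hsub

end

end Pool.Agent.Results.MP_7ab245_nt.CyclotomicSums
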